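import Pool.Agent.L0h37.KM.Stm2

set_option autoImplicit false

/-! Project KM, module UW: the limit of the matrix integrals. -/

namespace Pool.Agent.L0h61.KM

open Complex Filter Topology MeasureTheory Set
open Pool.Agent.L0h37.KM
open Pool.Agent.R446.KR (haarU Wk)

namespace Uw

/-- the integrand of `kap α` -/
noncomputable def f (α x : ℝ) : ℂ := cexp (-(2 * I * ((α * x : ℝ) : ℂ)))

lemma f_eq (α x : ℝ) : f α x = cexp (I * ((-2 * (α * x) : ℝ) : ℂ)) := by
  unfold f
  congr 1
  push_cast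
  ring

lemma norm_f (α x : ℝ) : ‖f α x‖ = 1 := by
  rw [f_eq, norm_exp_I_mul_ofReal]

lemma f_cont (α : ℝ) : Continuous (f α) := by
  unfold f
  fun_prop

lemma f_lip (α x y : ℝ) : ‖f α x - f α y‖ ≤ 2 * |α| * |x - y| := by
  have h : f α x - f α y = f α y * (cexp (I * ((-2 * (α * (x - y)) : ℝ) : ℂ)) - 1) := by
    rw [f_eq, f_eq, mul_sub, mul_one, ← Complex.exp_add]
    congr 2
    push_cast
    ring
  rw [h, norm_mul, norm_f, one_mul]
  refine Real.norm_exp_I_mul_ofReal_sub_one_le.trans (le_of_eq ?_)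
  rw [Real.norm_eq_abs, abs_mul, abs_mul, abs_neg, abs_two]
  ring

/-- a Riemann sum -/
lemma riem (α : ℝ) (N : ℕ) (hN : 1 ≤ N) :
    ‖(N : ℂ)⁻¹ * ∑ j ∈ Finset.range N, f α ((j : ℝ) / N) - kap α‖ ≤ 2 * |α| / N := by
  have hN0 : (0 : ℝ) < N := by exact_mod_cast hN
  have h1 : kap α = ∑ j ∈ Finset.range N,
      ∫ x in ((j : ℝ) / N)..(((j + 1 : ℕ) : ℝ) / N), f α x := by
    rw [intervalIntegral.sum_integral_adjacent_intervals (a := fun j : ℕ => (j : ℝ) / N)
      (fun k _ => (f_cont α).intervalIntegrable _ _)]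
    simp only [Nat.cast_zero, zero_div, div_self hN0.ne']
    rfl
  have h2 : (N : ℂ)⁻¹ * ∑ j ∈ Finset.range N, f α ((j : ℝ) / N) =
      ∑ j ∈ Finset.range N,
        ∫ x in ((j : ℝ) / N)..(((j + 1 : ℕ) : ℝ) / N), f α ((j : ℝ) / N) := by
    rw [Finset.mul_sum]
    refine Finset.sum_congr rfl fun j _ => ?_
    rw [intervalIntegral.integral_const]
    have : (((j + 1 : ℕ) : ℝ) / N - (j : ℝ) / N) = (N : ℝ)⁻¹ := by
      push_cast
      field_simp
      ring
    rw [this, Complex.real_smul]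
    push_cast
    rfl
  rw [h1, h2, ← Finset.sum_sub_distrib]
  refine (norm_sum_le _ _).trans ?_
  have h3 : ∀ j ∈ Finset.range N,
      ‖(∫ x in ((j : ℝ) / N)..(((j + 1 : ℕ) : ℝ) / N), f α ((j : ℝ) / N)) -
        ∫ x in ((j : ℝ) / N)..(((j + 1 : ℕ) : ℝ) / N), f α x‖ ≤ 2 * |α| / N * (1 / N) := by
    intro j _
    rw [← intervalIntegral.integral_sub (continuous_const.intervalIntegrable _ _)
      ((f_cont α).intervalIntegrable _ _)]
    have hle : (j : ℝ) / N ≤ ((j + 1 : ℕ) : ℝ) / N := by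
      push_cast
      gcongr
      linarith
    have h4 := intervalIntegral.norm_integral_le_of_norm_le_const
      (a := (j : ℝ) / N) (b := ((j + 1 : ℕ) : ℝ) / N)
      (f := fun x => f α ((j : ℝ) / N) - f α x) (C := 2 * |α| / N) (by
        intro x hx
        rw [Set.uIoc_of_le hle, Set.mem_Ioc] at hx
        refine (f_lip α _ _).trans ?_
        have h5 : |(j : ℝ) / N - x| ≤ 1 / N := by
          rw [abs_sub_comm, abs_of_nonneg (by linarith)]
          have h6 := hx.2
          push_cast at h6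
          rw [add_div] at h6
          linarith
        calc 2 * |α| * |(j : ℝ) / N - x| ≤ 2 * |α| * (1 / N) := by gcongr
          _ = 2 * |α| / N := by ring)
    refine h4.trans (le_of_eq ?_)
    have : (((j + 1 : ℕ) : ℝ) / N - (j : ℝ) / N) = 1 / N := by
      push_cast
      field_simp
      ring
    have h7 : |1 / (N : ℝ)| = 1 / N := abs_of_pos (by positivity)
    rw [this, h7]
  refine (Finset.sum_le_sum h3).trans (le_of_eq ?_)
  rw [Finset.sum_const, Finset.card_range, nsmul_eq_mul]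
  field_simp

lemma bound (h : S_SEC) (α : ℝ) (N : ℕ) (hN : 1 ≤ N) : ‖Wk 1 α N - kap α‖ ≤ (2 * |α| + 1) / N := by
  have hN0 : (0 : ℝ) < N := by exact_mod_cast hN
  have hNC : (N : ℂ) ≠ 0 := by exact_mod_cast hN0.ne'
  have h1 : Wk 1 α N = (N : ℂ)⁻¹ * ∑ j ∈ Finset.range (N + 1), f α ((j : ℝ) / N) := by
    unfold Wk
    simp only [pow_one, one_pow]
    rw [h N _ hN]
    congr 1
    refine Finset.sum_congr rfl fun j _ => ?_
    rw [← Complex.exp_nat_mul]
    unfold f
    congr 1
    push_cast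
    ring
  rw [h1, Finset.sum_range_succ, mul_add, add_sub_right_comm]
  refine (norm_add_le _ _).trans ?_
  have h2 := riem α N hN
  have h3 : ‖(N : ℂ)⁻¹ * f α ((N : ℝ) / N)‖ = 1 / N := by
    rw [norm_mul, norm_f, mul_one, norm_inv, Complex.norm_natCast, one_div]
  rw [h3, add_div]
  linarith

end Uw

theorem t_UW (h : S_SEC) : S_UW := by
  intro α
  rw [tendsto_iff_norm_sub_tendsto_zero]
  refine squeeze_zero' (Eventually.of_forall fun N => norm_nonneg _)
    ((eventually_ge_atTop 1).mono fun N hN => Uw.bound h α N hN) ?_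
  exact tendsto_const_div_atTop_nhds_zero_nat _

end Pool.Agent.L0h61.KM
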